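import Pool.Agent.N111.GI.Cor
import Pool.Agent.R882.HYM

/-!
MP_1e3e9c_ag, Q1: Kobayashi's conjecture for the projective varieties which correspond to generic
complete intersections.

Let `k` be a subfield of the complex numbers. A *generic complete intersection* `X`
(`GenericCI k ℂ`, in `Pool/Agent/N111/GI/Maps.lean`) is the intersection of a closed subset `V` of a
projective space, defined over the algebraic closure of `k`, of dimension at most `m`, and of
hypersurfaces `F a = 0` of degrees `d a`, where the ratios of the coefficients of `F a` to one of them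
are, for all `a` together, algebraically independent over `k`.

Let `M` be a projective variety, of dimension `w ≥ 1`, with function field `L` and generic point `u`
in homogeneous coordinates. Let `M ← W → X` be a correspondence, where `W → M` is a generically finite
rational map of degree at most `r`, and `W → X` is a rational map which is generically finite onto its
image: it is given by the function field `L'` of `W`, an extension of `L` of degree at most `r`, and a
point `x` of `X` with coordinates in `L'` such that `L'` is algebraic over `coords ℂ x`, the field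
generated by the ratios of the coordinates of `x`. For instance, `M` can be (birational to) the
quotient of a variety `W` with a generically finite map to `X` by a finite group of order at most `r`.

`GeneralType ℂ L w`: the canonical class of (a resolution of) the varieties with function field `L` is
big. `StronglyGeneral ℂ u`: off a proper closed subset of `M`, all closed subvarieties of positive
dimension have a big canonical class. `IsUniruled`: `M` is uniruled. If `M` is smooth and hyperbolic
and the canonical class is big then it is ample, by the cone theorem and the base point free theorem.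
-/

set_option autoImplicit false
set_option linter.overlappingInstances false

namespace Pool.Agent.Results.MP_1e3e9c_ag.GenericCorrespondences

open MvPolynomial
open Pool.Agent.W602.GT (GeneralType coords)
open Pool.Agent.TH466.QG (StronglyGeneral)
open Pool.Agent.W619.PQ (IsUniruled)
open Pool.Agent.N111.GI (GenericCI)

/-- Let `M ← W → X` be a correspondence as above, and let `S` be the sum of the numbers `d a + 1`.

**(1)** If `S + w ≥ 2 m + 2 r`, or if `S + w ≥ 2 m + 1 + r` and `S ≥ 2 m + 2`, then the canonical class
of `M` is big, and `M` is not uniruled.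

**(2)** If `S + 1 ≥ 2 m + 2 r`, or if `S ≥ 2 m + r` and `S ≥ 2 m + 2`, then, off a proper closed
subset of `M`, all closed subvarieties of positive dimension have a big canonical class. -/
theorem result {k L : Type} [Field k] [Algebra k ℂ] [Field L] [Algebra ℂ L] {N : ℕ}
    {u : Fin (N + 1) → L} (hu : u ≠ 0) (hgen : coords ℂ u = ⊤) {w : ℕ}
    (hw : Algebra.trdeg ℂ L = w) (hw1 : 1 ≤ w) (X : GenericCI k ℂ) (r : ℕ) (L' : Type) [Field L']
    [Algebra ℂ L'] [Algebra L L'] [IsScalarTower ℂ L L'] [FiniteDimensional L L']
    (hr : Module.finrank L L' ≤ r) (x : Fin (X.n + 1) → L') (hx : X.Point x)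
    (halg : Algebra.IsAlgebraic (coords ℂ x) L') :
    ((2 * X.m + 1 + r ≤ ∑ a, (X.d a + 1) + w ∧ 2 * X.m + 2 ≤ ∑ a, (X.d a + 1)) ∨
        2 * X.m + 2 * r ≤ ∑ a, (X.d a + 1) + w →
      GeneralType ℂ L w ∧ ¬ IsUniruled ℂ L w) ∧
    ((2 * X.m + 1 + r ≤ ∑ a, (X.d a + 1) + 1 ∧ 2 * X.m + 2 ≤ ∑ a, (X.d a + 1)) ∨
        2 * X.m + 2 * r ≤ ∑ a, (X.d a + 1) + 1 → StronglyGeneral ℂ u) := by
  classical
  have hess : Algebra.EssFiniteType ℂ L := Pool.Agent.N111.GI.ess_of_gen hgen
  have hac : IsAlgClosed (algebraicClosure k ℂ) := (algebraicClosure.isAlgClosure k ℂ).isAlgClosed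
  refine ⟨fun hd => ?_, fun hd => ?_⟩
  · have hg : GeneralType ℂ L w := by
      rcases hd with ⟨hd, hd2⟩ | hd
      · exact Pool.Agent.N111.GI.img_line X.V X.V_form X.V_dim hw1 hr hd hd2 X.F X.F_form X.I₀
          X.coeff_ne X.generic.algebraicClosure hw hx.ne halg hx.mem_V hx.mem_F
      · exact Pool.Agent.N111.GI.img_general X.V X.V_form X.V_dim hw1 hr hd X.F X.F_form X.I₀
          X.coeff_ne X.generic.algebraicClosure hw hx.ne halg hx.mem_V hx.mem_F
    exact ⟨hg, Pool.Agent.R882.HY.not_uniruled_of_gt hw hg⟩
  · rcases hd with ⟨hd, hd2⟩ | hd
    · exact Pool.Agent.N111.GI.img_strong_line X.V X.V_form X.V_dim hr hd hd2 X.F X.F_form X.I₀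
        X.coeff_ne X.generic.algebraicClosure hx.ne halg hx.mem_V hx.mem_F hu hgen
    · exact Pool.Agent.N111.GI.img_strong X.V X.V_form X.V_dim hr hd X.F X.F_form X.I₀
        X.coeff_ne X.generic.algebraicClosure hx.ne halg hx.mem_V hx.mem_F hu hgen

end Pool.Agent.Results.MP_1e3e9c_ag.GenericCorrespondences
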