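import Pool.Agent.N133.Kum

/-!
MP_1e3e9c_ag, Q1: Kobayashi's conjecture for all projective varieties which are birational to covers
`w j ^ e j = F j (t 0 ^ m, …, t n ^ m)` of arbitrary projective varieties, `m` large.

`y` is the generic point, in homogeneous coordinates, of the projective variety `V` in `P^N` with
function field `L`. `BrodyHyperbolic y`: all holomorphic maps from `ℂ` to `V` are constant.
`NoRationalCurve y`: `V` contains no rational curve. `GeneralType ℂ L d`: the canonical class of (a
resolution of) `V` is big; `KodGe ℂ L d (fun _ => False) 0`: the Kodaira dimension is at least `0`;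
`Psef ℂ L d (fun _ => False)`: the canonical class is pseudo-effective; `Ruled ℂ L`: `V` is birational
to a product with the projective line. If `V` is smooth and hyperbolic, and the canonical class is big,
then it is ample, by the cone theorem and the base point free theorem.
-/

set_option autoImplicit false

namespace Pool.Agent.Results.MP_1e3e9c_ag.KummerKobayashi

open Pool.Agent.W602.GT Pool.Agent.Y192.KC
open Pool.Agent.W619.PQ (IsUniruled)
open Pool.Agent.R882.HY (NoRationalCurve BrodyHyperbolic)

/-- Let `Z` be any irreducible projective variety in `P^n`, not in a coordinate hyperplane, with the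
homogeneous prime ideal `I`, let `F 1, …, F r` be forms which do not vanish on `Z`, and let
`e 1, …, e r` be positive numbers (there is no condition on the singularities of `Z` and of the
divisors `F j = 0`). There is a number `m0` with the following property. Let `m ≥ m0` be divisible by
the `e j`, and let `X` be any irreducible component, of dimension `d > 0`, of the projective variety
with the equations `f (t 0 ^ m, …, t n ^ m) = 0`, `f ∈ I`, and
`w j ^ e j = F j (t 0 ^ m, …, t n ^ m)` in the weighted projective space with the homogeneous
coordinates `t i` and `w j`; `L` is the function field of `X`, and `t`, `w` are the coordinates of its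
generic point. Let `V` in `P^N` be any projective variety which is birational to `X`, with generic
point `y`. If `V` is Kobayashi hyperbolic, or if `V` only contains no rational curve, then the
canonical class of `V` is big. The following are equivalent: the canonical class of `V` is big; a
multiple of it is effective; it is pseudo-effective; `V` is not ruled; `V` is not uniruled; there is
no one-parameter group of diagonal matrices which acts nontrivially on `P^n` and preserves `Z` and
the essential parts of the branch divisors `F j = 0` on `Z`. -/
theorem result {n r : ℕ} (X : ZCov n r) (hG : X.G = 1) :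
    ∃ m0 : ℕ, ∀ m, m0 ≤ m → (∀ j, X.e j ∣ m) →
      ∀ (L : Type) [Field L] [Algebra ℂ L] (t : Fin (n + 1) → L) (w : Fin r → L),
      ZField X m L t w → ∀ d : ℕ, 1 ≤ d → Algebra.trdeg ℂ L = d →
      ∀ (N : ℕ) (y : Fin (N + 1) → L), y ≠ 0 → coords ℂ y = ⊤ →
      (BrodyHyperbolic y → GeneralType ℂ L d) ∧ (NoRationalCurve y → GeneralType ℂ L d) ∧
      [GeneralType ℂ L d, KodGe ℂ L d (fun _ => False) 0, Psef ℂ L d (fun _ => False),
        ¬ Ruled ℂ L, ¬ IsUniruled ℂ L d, ¬ ZRed X].TFAE := by
  obtain ⟨m0, hm0⟩ := Pool.Agent.N133.Kum.kum_all X hG
  refine ⟨m0, fun m hm he L _ _ t w hF d hd htr N y hy hgen => ?_⟩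
  obtain ⟨h, h1, h2⟩ := hm0 m hm he L t w hF d hd htr N y hy hgen
  refine ⟨h2, h1, ?_⟩
  tfae_have 1 ↔ 2 := h.out 0 1
  tfae_have 1 ↔ 3 := h.out 0 2
  tfae_have 1 ↔ 4 := h.out 0 3
  tfae_have 1 ↔ 5 := h.out 0 4
  tfae_have 1 ↔ 6 := h.out 0 7
  tfae_finish

end Pool.Agent.Results.MP_1e3e9c_ag.KummerKobayashi
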