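import Pool.Agent.N115.JU.Img

/-!
# Kobayashi hyperbolicity and canonical classes of the finite images of the varieties of the vectors
whose powers are the values of a polynomial, and of the finite images of their finite covers

Let `a 0, ..., a N` be distinct complex numbers and `m ≥ 2`. Let `V = {F = 0}` be a closed subset of
`P^N` such that for every point `x` of `V` there is a polynomial `H` of degree at most `n` with
`x i ^ m = H (a i)` for all `i`, and `H` is not divisible by the `m`-th power of a polynomial of
degree at least two (`AllSimple`). The last condition always holds if `n < 2 m`; then `V` is any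
closed subset of the smooth complete intersection `X_m = PowVal a n m` of dimension `n`.

We consider the projective varieties `X = {Φ = 0}` which are images of `V`, or of a finite cover
`W = {Ψ = 0}` of a closed subset of `V`, under a morphism with fibres of at most `r` points. The
morphisms are given by forms of equal positive degree without common zeros (`Mor`), so they are
finite; `Onto`: the morphism is surjective; `FibresLe G r`: the fibres have at most `r` points
(`Pool/Agent/Y221/FQ/Defs.lean`). No assumption is made on the branch loci and the singularities.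

`Entire Φ f`: `f` is a nonconstant holomorphic map from the complex plane to `X`; `Essential Φ f`:
`f` is a holomorphic map from the punctured disc to `X` which does not extend to the disc;
`GmCurve Φ P`: `P` is a nonconstant morphism from the multiplicative group to `X`; `NoLines F`: `V`
contains no line; `AllGeneral Φ`: all closed subvarieties of positive dimension of `X` are of general
type; `AllSub P Φ`: they have the property `P` of the function field and the dimension, namely
`κ ≥ 0` (`KodGe`), a pseudo-effective canonical class (`Psef`), not uniruled (`IsUniruled`).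
-/

set_option autoImplicit false

open Pool.Agent.W602.GT
open Pool.Agent.Y221.FQ (Mor Onto FibresLe Entire Essential AllGeneral)
open Pool.Agent.Y190.BV (PowVal)
open Pool.Agent.Y190.PH (AllSimple NoLines)
open Pool.Agent.Y460.KB (AllSub)
open Pool.Agent.W619.PQ (IsUniruled)

namespace Pool.Agent.Results.MP_1e3e9c_ag.PolynomialValueCovers

/-- Let `m ≥ 2`, `r ≥ 1`, `4 n + (n + 2 r - 1) ^ 2 < 2 (N + 1)` and `(r (r - 1) + 4) r n < N + 1`.
**(1)** If `V` contains no line (for instance if `n < m`), and if `W = {Ψ = 0}` is a projective
variety with a morphism `B : W → V` and a surjective morphism `G : W → X = {Φ = 0}` with fibres of at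
most `r` points, then `X` is hyperbolic: all holomorphic maps from the punctured disc to `X` extend,
and there is no nonconstant entire curve; and all closed subvarieties of positive dimension of `X`
are of general type.
**(2)** If `X = {Φ = 0}` is the image of `V` under a morphism with fibres of at most `r` points, then
the following are equivalent: `X` is hyperbolic; all holomorphic maps from the punctured disc to `X`
extend; there is no nonconstant morphism from the multiplicative group to `X`; all closed
subvarieties of positive dimension of `X` are of general type; all of them have `κ ≥ 0`; all of them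
have a pseudo-effective canonical class; none of them is uniruled; `V` contains no line. -/
theorem result {N n m r : ℕ} (hm : 2 ≤ m) (hr : 1 ≤ r)
    (hN1 : 4 * n + (n + 2 * r - 1) ^ 2 < 2 * (N + 1)) (hN2 : (r * (r - 1) + 4) * (r * n) < N + 1)
    (a : Fin (N + 1) → ℂ) (ha : Function.Injective a) {ι : Type}
    (F : ι → MvPolynomial (Fin (N + 1)) ℂ) (hF : ∀ e, IsForm (F e)) :
    (n < 2 * m → Cone F ⊆ PowVal a n m → AllSimple a n m F) ∧
    (AllSimple a n m F → (n < m → NoLines F) ∧
      (NoLines F → ∀ (M' M : ℕ) (κ μ : Type) (Ψ : κ → MvPolynomial (Fin (M' + 1)) ℂ)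
        (Φ : μ → MvPolynomial (Fin (M + 1)) ℂ) (B : Fin (N + 1) → MvPolynomial (Fin (M' + 1)) ℂ)
        (G : Fin (M + 1) → MvPolynomial (Fin (M' + 1)) ℂ), (∀ e, IsForm (Ψ e)) →
        (∀ e, IsForm (Φ e)) → Mor Ψ F B → Mor Ψ Φ G → Onto Ψ Φ G → FibresLe Ψ G r →
        (∀ f, ¬ Essential Φ f) ∧ (∀ f, ¬ Entire Φ f) ∧ AllGeneral Φ) ∧
      ∀ (M : ℕ) (μ : Type) (Φ : μ → MvPolynomial (Fin (M + 1)) ℂ)
        (G : Fin (M + 1) → MvPolynomial (Fin (N + 1)) ℂ), (∀ e, IsForm (Φ e)) → Mor F Φ G →
        Onto F Φ G → FibresLe F G r →
        [∀ f, ¬ Entire Φ f, ∀ f, ¬ Essential Φ f, ∀ P, ¬ GmCurve Φ P, AllGeneral Φ,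
          AllSub (fun K _ _ w => KodGe ℂ K w (fun _ => False) 0) Φ,
          AllSub (fun K _ _ w => Psef ℂ K w (fun _ => False)) Φ,
          AllSub (fun K _ _ w => ¬ IsUniruled ℂ K w) Φ, NoLines F].TFAE) := by
  refine ⟨fun hnm hV => Pool.Agent.Y460.KB.allSimple_of_lt hnm hV, fun hS => ⟨fun hnm => ?_,
    fun hL M' M κ μ Ψ Φ B G hΨ hΦ hB hG hon hfib => Pool.Agent.N115.JU.hyp_coverL hm hr
      ⟨hN1, hN2⟩ ha hF hS hΦ hΨ hB hG hon hfib hL,
    fun M μ Φ G hΦ hG hon hfib => Pool.Agent.N115.JU.hyp_imL hm hr ⟨hN1, hN2⟩ ha hF hS hΦ hG hon
      hfib⟩⟩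
  exact Pool.Agent.N115.JU.noLines_of_lt hm hr hN1 ha hF hS hnm

end Pool.Agent.Results.MP_1e3e9c_ag.PolynomialValueCovers
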