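import Pool.Agent.N133.WB

/-!
MP_1e3e9c_ag, Q1: Kobayashi's conjecture for all projective varieties which are birational to the
components of the projective varieties given by forms with few monomials whose exponents are far
apart in the sense of lattice widths (no divisibility of the exponents, arbitrary coefficients).

`Wide ∅ F N` (`Pool/Agent/R869/WDefs.lean`): whenever at most `n` pairs of exponent vectors of the
forms, in the variables of a set `I`, are such that the sum of the segments between them has positive
width in all directions, this sum has width at least `N` in all directions. `K`, `y` are the function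
field and the generic point of an irreducible component of dimension `w` of `{F = 0}`, and `x` is the
generic point, in homogeneous coordinates, of a projective variety `V` in `P^M` with function field
`K`. `BrodyHyperbolic x`: all holomorphic maps from `ℂ` to `V` are constant. `NoRationalCurve x`: `V`
contains no rational curve. `GeneralType ℂ K w`: the canonical class of (a resolution of) `V` is big;
`KodGe ℂ K w (fun _ => False) 0`: the Kodaira dimension is at least `0`;
`Psef ℂ K w (fun _ => False)`: the canonical class is pseudo-effective; `Ruled ℂ K`: `V` is birational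
to a product with the projective line; `IsUniruled ℂ K w`: `V` is uniruled. `Acts ∅ ℂ y b`: the
diagonal one-parameter group with the weights `b` acts on the component. If `V` is smooth and
hyperbolic, and the canonical class is big, then it is ample, by the cone theorem and the base point
free theorem.
-/

set_option autoImplicit false
set_option linter.overlappingInstances false

namespace Pool.Agent.Results.MP_1e3e9c_ag.WideKobayashi

open MvPolynomial Pool.Agent.W602.GT Pool.Agent.H159R3.GGLLog Pool.Agent.R869.Wd
open Pool.Agent.W619.PQ (IsUniruled)
open Pool.Agent.R882.HY (NoRationalCurve BrodyHyperbolic)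

/-- Let `Z` be an irreducible component, of dimension `w ≥ 1`, of the projective variety in `P^n`
given by finitely many forms with at most `s` monomials, and let the system of forms be `N`-wide with
`N > n s (s - 1) (s - 2) / 2`. Let `V` be any projective variety which is birational to `Z`. If `V` is
Kobayashi hyperbolic, or if `V` only contains no rational curve, then the canonical class of `V` is
big. The following are equivalent: the canonical class of `V` is big; a multiple of it is effective;
it is pseudo-effective; `V` is not ruled; `V` is not uniruled; all diagonal one-parameter groups which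
act on `Z` act trivially. -/
theorem result {n : ℕ} {ι : Type} {F : ι → MvPolynomial (Fin (n + 1)) ℂ} {s N : ℕ}
    (hfin : Finite ι) (hs : 1 ≤ s) (hF : ∀ e, IsForm (F e)) (hc : ∀ e, (F e).support.card ≤ s)
    (hW : Wide ∅ F N) (hN : n * (s * ((s - 1) * (s - 2) / 2)) < N) {K : Type} [Field K]
    [Algebra ℂ K] {w : ℕ} {y : Fin (n + 1) → K} (hw : 1 ≤ w) (hy : SubVar F K w y)
    (hcomp : IsComponent F y) {M : ℕ} {x : Fin (M + 1) → K} (hx : x ≠ 0)
    (hgen : coords ℂ x = ⊤) :
    (BrodyHyperbolic x → GeneralType ℂ K w) ∧ (NoRationalCurve x → GeneralType ℂ K w) ∧
    [GeneralType ℂ K w, KodGe ℂ K w (fun _ => False) 0, Psef ℂ K w (fun _ => False),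
      ¬ Ruled ℂ K, ¬ IsUniruled ℂ K w,
      ∀ b : Fin (n + 1) → ℤ, Acts ∅ ℂ y b → ∀ i i', y i ≠ 0 → y i' ≠ 0 → b i = b i'].TFAE := by
  have hC : Sys ∅ F s N := ⟨hF, hs, hc, hW, by
    rw [tri_choose]
    refine lt_of_le_of_lt (le_of_eq ?_) hN
    ring⟩
  obtain ⟨h, h1, h2⟩ := Pool.Agent.N133.WB.wide_all hC hw hy hcomp hx hgen
  refine ⟨h2, h1, ?_⟩
  tfae_have 1 ↔ 2 := h.out 0 1
  tfae_have 1 ↔ 3 := h.out 0 2
  tfae_have 1 ↔ 4 := h.out 0 3
  tfae_have 1 ↔ 5 := h.out 0 4
  tfae_have 1 ↔ 6 := h.out 0 7
  tfae_finish

end Pool.Agent.Results.MP_1e3e9c_ag.WideKobayashi
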